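import Pool.Agent.MP_c3c849_pr.Main

/-!
# MP_c3c849_pr: transience of supercritical clusters on the canopy tree times `ℤ`

Full positive answer: for every `d ≥ 3` and every `p > p_c`, almost surely every infinite open
cluster of Bernoulli(`p`) bond percolation on (canopy tree of degree `d`) times `ℤ` is transient.
Definitions: `Pool/Agent/MP_c3c849_pr/Defs.lean`.
-/

open MeasureTheory

namespace Pool.Agent.Results.MP_c3c849_pr.CanopyTransience

open Pool.Agent.MP_c3c849_pr

theorem result (d : ℕ) (hd : 3 ≤ d) (p : unitInterval) (hp : pc (GZ (d - 1)) < (p : ℝ)) :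
    ∀ᵐ ω ∂(perc Vtx p), ∀ x : Vtx, InfCl (GZ (d - 1)) ω x →
      Transient (opn (GZ (d - 1)) ω) x :=
  main (d - 1) (by omega) p hp

end Pool.Agent.Results.MP_c3c849_pr.CanopyTransience
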